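import Pool.Agent.L7h3.CE.Stm

/-! Project CE: GLUE (decompositions of the classes of a finite colouring glue together). -/

namespace Pool.Agent.L7h99.CE
open Set Pool.Agent.L7h3.CE
open Pool.Agent.Helper391.Lg (bd ins)

universe u

theorem reach_mono {V : Type*} {A B : Set (Sym2 V)} (h : A ⊆ B) {u v : V}
    (hr : (SimpleGraph.fromEdgeSet A).Reachable u v) :
    (SimpleGraph.fromEdgeSet B).Reachable u v :=
  hr.mono (SimpleGraph.fromEdgeSet_mono h)

theorem ends_finite {V : Type*} (e : Sym2 V) : {x | x ∈ e}.Finite := by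
  induction e using Sym2.ind with
  | _ a b =>
    refine (Set.toFinite ({a, b} : Set V)).subset ?_
    intro x hx
    simpa using hx

theorem s_GLUE (hP : S_PACK.{u}) : S_GLUE.{u} := by
  intro V G C hC f hf hcr hgood
  have hgood' : ∀ c ∈ f '' C, ∃ A B, Dec G {v | v ∈ C ∧ f v = c} A B := hgood
  choose! AA BB hD using hgood'
  obtain ⟨A0, B0, hA0, hB0, hd0, hΘ⟩ := hP V G C hC f hf hcr
  have hcol : ∀ w ∈ C, f w ∈ f '' C := fun w hw => ⟨w, hw, rfl⟩
  refine ⟨A0 ∪ {e | ∃ c ∈ f '' C, e ∈ AA c}, B0 ∪ {e | ∃ c ∈ f '' C, e ∈ BB c}, ?_⟩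
  refine ⟨?_, ?_, ?_, ?_, ?_, ?_⟩
  · rintro e (he | ⟨c, hc, he⟩)
    · exact (hA0 he).1
    · have h1 := (hD c hc).subA he
      exact ⟨h1.1, fun v hv => (h1.2 v hv).1⟩
  · rintro e (he | ⟨c, hc, he⟩)
    · exact (hB0 he).1
    · have h1 := (hD c hc).subB he
      exact ⟨h1.1, fun v hv => (h1.2 v hv).1⟩
  · rw [Set.disjoint_left]
    rintro e (he | ⟨c, hc, he⟩) (he' | ⟨c', hc', he'⟩)
    · exact Set.disjoint_left.1 hd0 he he'
    · obtain ⟨-, x, hx, y, hy, hxy⟩ := hA0 he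
      have h1 := (hD c' hc').subB he'
      exact hxy (((h1.2 x hx).2).trans ((h1.2 y hy).2).symm)
    · obtain ⟨-, x, hx, y, hy, hxy⟩ := hB0 he'
      have h1 := (hD c hc).subA he
      exact hxy (((h1.2 x hx).2).trans ((h1.2 y hy).2).symm)
    · by_cases hcc : c = c'
      · subst hcc
        exact Set.disjoint_left.1 (hD c hc).disj he he'
      · have h1 := (hD c hc).subA he
        have h2 := (hD c' hc').subB he'
        obtain ⟨x, hx⟩ : ∃ x, x ∈ e := by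
          induction e using Sym2.ind with
          | _ a b => exact ⟨a, Sym2.mem_mk_left a b⟩
        exact hcc (((h1.2 x hx).2).symm.trans ((h2.2 x hx).2))
  · -- conn
    intro u hu v hv
    by_contra hnv
    set R := (SimpleGraph.fromEdgeSet (A0 ∪ {e | ∃ c ∈ f '' C, e ∈ AA c})) with hR
    set Θ : Set ℕ := f '' {w | w ∈ C ∧ R.Reachable u w} with hΘd
    have key : ∀ w ∈ C, f w ∈ Θ → R.Reachable u w := by
      rintro w hw ⟨w', ⟨hw'C, hw'R⟩, hww⟩
      refine hw'R.trans ?_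
      have h1 := (hD (f w) (hcol w hw)).conn w' ⟨hw'C, hww⟩ w ⟨hw, rfl⟩
      refine reach_mono ?_ h1
      intro e he
      exact Or.inr ⟨f w, hcol w hw, he⟩
    obtain ⟨⟨e, he, ⟨x, hx, hxΘ⟩, y, hy, hyΘ⟩, -⟩ := hΘ Θ
      ⟨u, hu, u, ⟨hu, SimpleGraph.Reachable.refl u⟩, rfl⟩ ⟨v, hv, fun h => hnv (key v hv h)⟩
    have hins := (hA0 he).1
    have hxC : x ∈ C := hins.2 x hx
    have hyC : y ∈ C := hins.2 y hy
    have hne : x ≠ y := by
      rintro rfl
      exact hyΘ hxΘ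
    have hes : e = s(x, y) := ((Sym2.mem_and_mem_iff hne).1 ⟨hx, hy⟩)
    have hadj : R.Adj x y := by
      rw [hR, SimpleGraph.fromEdgeSet_adj]
      refine ⟨Or.inl ?_, hne⟩
      rw [← hes]
      exact he
    exact hyΘ ⟨y, ⟨hyC, (key x hxC hxΘ).trans hadj.reachable⟩, rfl⟩
  · -- faith
    intro S hS
    have h1 : ∀ c ∈ f '' C, ∃ K : Set V, K.Finite ∧ S ⊆ K ∧
        ∀ u ∈ {v | v ∈ C ∧ f v = c} \ K, ∀ v ∈ {v | v ∈ C ∧ f v = c} \ K,
          (SimpleGraph.fromEdgeSet (ins G ({v | v ∈ C ∧ f v = c} \ K))).Reachable u v →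
          (SimpleGraph.fromEdgeSet {e | e ∈ AA c ∧ ∀ x ∈ e, x ∉ S}).Reachable u v :=
      fun c hc => (hD c hc).faith S hS
    choose! KK hKf hKS hKr using h1
    refine ⟨S ∪ (⋃ c ∈ f '' C, KK c) ∪ (⋃ e ∈ crs G C f, {x | x ∈ e}), ?_, ?_, ?_⟩
    · refine (hS.union (hf.biUnion fun c hc => hKf c hc)).union
        (hcr.biUnion fun e _ => ends_finite e)
    · intro x hx
      exact Or.inl (Or.inl hx)
    · set K := S ∪ (⋃ c ∈ f '' C, KK c) ∪ (⋃ e ∈ crs G C f, {x | x ∈ e}) with hK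
      intro u hu v hv huv
      have step : ∀ w, (SimpleGraph.fromEdgeSet (ins G (C \ K))).Reachable u w →
          w ∈ C \ K ∧ f w = f u ∧ (SimpleGraph.fromEdgeSet
            (ins G ({v | v ∈ C ∧ f v = f u} \ KK (f u)))).Reachable u w := by
        intro w hw
        obtain ⟨p⟩ := hw.symm
        induction p with
        | nil => exact ⟨hu, rfl, SimpleGraph.Reachable.refl _⟩
        | @cons a b c hadj q ih =>
          obtain ⟨h1, h2, h3⟩ := ih hu huv ⟨q.reverse⟩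
          rw [SimpleGraph.fromEdgeSet_adj] at hadj
          obtain ⟨⟨hG, hin⟩, hne⟩ := hadj
          have ha : a ∈ C \ K := hin a (Sym2.mem_mk_left a b)
          have hb : b ∈ C \ K := hin b (Sym2.mem_mk_right a b)
          have hfab : f a = f b := by
            by_contra hfab
            apply ha.2
            refine Or.inr ?_
            rw [mem_iUnion₂]
            exact ⟨s(a, b), ⟨⟨hG, fun z hz => (hin z hz).1⟩, a, Sym2.mem_mk_left a b, b,
              Sym2.mem_mk_right a b, hfab⟩, Sym2.mem_mk_left a b⟩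
          have hKc : ∀ z, z ∈ C \ K → z ∉ KK (f c) := by
            intro z hz hz'
            apply hz.2
            refine Or.inl (Or.inr ?_)
            rw [mem_iUnion₂]
            exact ⟨f c, hcol c hu.1, hz'⟩
          refine ⟨ha, hfab.trans h2, ?_⟩
          refine h3.trans ?_
          refine SimpleGraph.Adj.reachable ?_
          rw [SimpleGraph.fromEdgeSet_adj]
          refine ⟨⟨?_, ?_⟩, hne.symm⟩
          · rw [Sym2.eq_swap]
            exact hG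
          · intro z hz
            rcases Sym2.mem_iff.1 hz with rfl | rfl
            · exact ⟨⟨hb.1, h2⟩, hKc _ hb⟩
            · exact ⟨⟨ha.1, hfab.trans h2⟩, hKc _ ha⟩
      obtain ⟨-, h2, h3⟩ := step v huv
      have hKc : ∀ z, z ∈ C \ K → z ∉ KK (f u) := by
        intro z hz hz'
        apply hz.2
        refine Or.inl (Or.inr ?_)
        rw [mem_iUnion₂]
        exact ⟨f u, hcol u hu.1, hz'⟩
      have h4 := hKr (f u) (hcol u hu.1) u ⟨⟨hu.1, rfl⟩, hKc u hu⟩ v ⟨⟨hv.1, h2⟩, hKc v hv⟩ h3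
      refine reach_mono ?_ h4
      rintro e ⟨he, he'⟩
      exact ⟨Or.inr ⟨f u, hcol u hu.1, he⟩, he'⟩
  · -- meet
    intro Z hZC hZne hZne' hfin
    by_cases hsp : ∃ c ∈ f '' C, ({v | v ∈ C ∧ f v = c} ∩ Z).Nonempty ∧
        ({v | v ∈ C ∧ f v = c} \ Z).Nonempty
    · obtain ⟨c, hc, hn1, z, hz, hz'⟩ := hsp
      have hsub : ∀ e, e ∈ ins G {v | v ∈ C ∧ f v = c} → e ∈ bd G ({v | v ∈ C ∧ f v = c} ∩ Z) →
          e ∈ bd G Z := by
        rintro e he ⟨h1, ⟨x, hx, hx'⟩, y, hy, hy'⟩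
        exact ⟨h1, ⟨x, hx, hx'.2⟩, y, hy, fun h => hy' ⟨he.2 y hy, h⟩⟩
      obtain ⟨e, he, he'⟩ := (hD c hc).meet ({v | v ∈ C ∧ f v = c} ∩ Z) inter_subset_left hn1
        ⟨z, hz, fun h => hz' h.2⟩ (hfin.subset (by
          rintro e ⟨h1, h2⟩
          exact ⟨⟨h1.1, fun v hv => (h1.2 v hv).1⟩, hsub e h1 h2⟩))
      exact ⟨e, Or.inr ⟨c, hc, he⟩, hsub e ((hD c hc).subB he) he'⟩
    · have hns : ∀ x ∈ C, f x ∈ f '' Z → x ∈ Z := by
        rintro x hx ⟨z, hz, hzx⟩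
        by_contra hxZ
        exact hsp ⟨f x, hcol x hx, ⟨z, ⟨hZC hz, hzx⟩, hz⟩, x, ⟨hx, rfl⟩, hxZ⟩
      obtain ⟨z, hz⟩ := hZne
      obtain ⟨w, hw, hw'⟩ := hZne'
      obtain ⟨-, e, he, ⟨x, hx, hxΘ⟩, y, hy, hyΘ⟩ := hΘ (f '' Z) ⟨z, hZC hz, z, hz, rfl⟩
        ⟨w, hw, fun h => hw' (hns w hw h)⟩
      have hins := (hB0 he).1
      exact ⟨e, Or.inl he, hins.1, ⟨x, hx, hns x (hins.2 x hx) hxΘ⟩, y, hy,
        fun h => hyΘ ⟨y, h, rfl⟩⟩

end Pool.Agent.L7h99.CE
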