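import Pool.Agent.L7h99.CE.QBase

/-! Project CE: Q2 (all finite nonempty vertex sets of the clique expansion have boundary at least 4). -/

namespace Pool.Agent.L7h99.CE
open Set Pool.Agent.L7h3.CE
open Pool.Agent.Helper391.Lg (bd ins)

universe u

theorem s_Q2 : S_Q2.{u} := by
  intro V G k hQ P hPf hPn
  have hbf : (bd (QG G k) P).Finite := bd_fin (nbr_fin hQ.fin) hPf
  by_cases hsp : ∃ p ∈ P, ∃ q, q ∉ P ∧ p.1.1 = q.1.1
  · obtain ⟨p, hp, q, hq, hpq⟩ := hsp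
    set Cj : Set (QV G k) := {x | x.1.1 = p.1.1} with hCj
    have hCf : Cj.Finite := clique_fin hQ.fin _
    have h5 : 5 ≤ Cj.ncard := by
      obtain ⟨v, hv⟩ := p.2.1
      have h1 : (Set.univ : Set (Fin 5)).ncard ≤ Cj.ncard := by
        refine Set.ncard_le_ncard_of_injOn (fun i => vr G k v i) ?_ ?_ hCf
        · intro i _
          exact hv
        · intro i _ i' _ hi
          have h2 : (vr G k v i).1.2 = (vr G k v i').1.2 := by
            rw [show vr G k v i = vr G k v i' from hi]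
          simpa [vr] using h2
      rw [Set.ncard_univ] at h1
      simpa using h1
    have hsum := Set.ncard_inter_add_ncard_sdiff_eq_ncard Cj P hCf
    have h1 : 1 ≤ (Cj ∩ P).ncard :=
      (Set.ncard_pos (hCf.subset inter_subset_left)).2 ⟨p, rfl, hp⟩
    have h2 : 1 ≤ (Cj \ P).ncard :=
      (Set.ncard_pos (hCf.subset sdiff_subset)).2 ⟨q, hpq.symm, hq⟩
    have h3 : ((Cj ∩ P) ×ˢ (Cj \ P)).ncard ≤ (bd (QG G k) P).ncard := by
      refine Set.ncard_le_ncard_of_injOn (fun x => s(x.1, x.2)) ?_ ?_ hbf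
      · rintro ⟨x, y⟩ ⟨⟨hxC, hxP⟩, hyC, hyP⟩
        refine ⟨⟨?_, Or.inl (hxC.trans hyC.symm)⟩, ⟨x, Sym2.mem_mk_left _ _, hxP⟩, y,
          Sym2.mem_mk_right _ _, hyP⟩
        intro hxy
        have hxy' : x = y := hxy
        exact hyP (show y ∈ P from hxy' ▸ (show x ∈ P from hxP))
      · rintro ⟨x, y⟩ ⟨⟨hxC, hxP⟩, hyC, hyP⟩ ⟨x', y'⟩ ⟨⟨hxC', hxP'⟩, hyC', hyP'⟩ he
        have he' : s(x, y) = s(x', y') := he
        rw [Sym2.eq_iff] at he'
        rcases he' with ⟨rfl, rfl⟩ | ⟨rfl, rfl⟩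
        · rfl
        · exact absurd hxP hyP'
    rw [Set.ncard_prod] at h3
    nlinarith
  · have huni : ∀ p ∈ P, ∀ q : QV G k, p.1.1 = q.1.1 → q ∈ P := by
      intro p hp q hpq
      by_contra hq
      exact hsp ⟨p, hp, q, hq, hpq⟩
    set U : Set V := {v | ∃ p ∈ P, p.1.1 = k v} with hU
    have hmem : ∀ (v : V) (q : QV G k), q.1.1 = k v → (q ∈ P ↔ v ∈ U) := by
      intro v q hq
      constructor
      · intro h
        exact ⟨q, h, hq⟩
      · rintro ⟨p, hp, hpv⟩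
        exact huni p hp q (hpv.trans hq.symm)
    have hUn : U.Nonempty := by
      obtain ⟨p, hp⟩ := hPn
      obtain ⟨v, hv⟩ := p.2.1
      exact ⟨v, p, hp, hv.symm⟩
    have hUc : Uᶜ.Nonempty := by
      obtain ⟨j, ⟨v, rfl⟩, hj⟩ := hQ.inf.exists_notMem_finite (hPf.image fun p => p.1.1)
      refine ⟨v, ?_⟩
      rintro ⟨p, hp, hpv⟩
      exact hj ⟨p, hp, hpv⟩
    have hbd : ∀ e ∈ bd G U, ∀ a ∈ e, ∀ b ∈ e, a ∈ U → b ∉ U →
        e ∈ bd G (Fib k (k a)) ∧ e ∈ bd G (Fib k (k b)) := by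
      intro e he a ha b hb haU hbU
      have hne : k a ≠ k b := by
        intro h
        obtain ⟨p, hp, hpa⟩ := haU
        exact hbU ⟨p, hp, hpa.trans h⟩
      exact ⟨⟨he.1, ⟨a, ha, rfl⟩, b, hb, fun h => hne h.symm⟩,
        ⟨he.1, ⟨b, hb, rfl⟩, a, ha, fun h => hne h⟩⟩
    have hUf : (bd G U).Finite := by
      have h1 : (⋃ j ∈ (fun p : QV G k => p.1.1) '' P, bd G (Fib k j)).Finite :=
        (hPf.image _).biUnion fun j _ => hQ.fin j
      refine h1.subset ?_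
      intro e he
      obtain ⟨a, ha, haU⟩ := he.2.1
      obtain ⟨b, hb, hbU⟩ := he.2.2
      rw [mem_iUnion₂]
      refine ⟨k a, ?_, (hbd e he a ha b hb haU hbU).1⟩
      obtain ⟨p, hp, hpa⟩ := haU
      exact ⟨p, hp, hpa⟩
    have h4 := hQ.four.four U hUn hUc hUf
    have hF : ∀ e ∈ bd G U, ∃ E ∈ bd (QG G k) P, ∀ p ∈ E, p.1.2 = Sum.inl e := by
      intro e he
      obtain ⟨a, ha, haU⟩ := he.2.1
      obtain ⟨b, hb, hbU⟩ := he.2.2
      obtain ⟨h1, h2⟩ := hbd e he a ha b hb haU hbU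
      have hpa : ve G k a e h1 ∈ P := (hmem a _ rfl).2 haU
      have hpb : ve G k b e h2 ∉ P := fun h => hbU ((hmem b _ rfl).1 h)
      refine ⟨s(ve G k a e h1, ve G k b e h2), ⟨⟨?_, Or.inr ⟨rfl, e, rfl⟩⟩,
        ⟨_, Sym2.mem_mk_left _ _, hpa⟩, _, Sym2.mem_mk_right _ _, hpb⟩, ?_⟩
      · intro h
        have h' : ve G k a e h1 = ve G k b e h2 := h
        rw [h'] at hpa
        exact hpb hpa
      · intro p hp
        rcases Sym2.mem_iff.1 hp with rfl | rfl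
        · rfl
        · rfl
    obtain ⟨p0, hp0⟩ := hPn
    haveI : Nonempty (Sym2 (QV G k)) := ⟨s(p0, p0)⟩
    choose! F hF1 hF2 using hF
    refine h4.trans (Set.ncard_le_ncard_of_injOn F hF1 ?_ hbf)
    intro e he e' he' hee
    obtain ⟨p, hp⟩ : ∃ p, p ∈ F e := by
      induction F e using Sym2.ind with
      | _ a b => exact ⟨a, Sym2.mem_mk_left a b⟩
    have h1 := hF2 e he p hp
    have h2 := hF2 e' he' p (hee ▸ hp)
    rw [h1] at h2
    simpa using h2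

end Pool.Agent.L7h99.CE
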