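import Pool.Agent.L7h31.CE.Stm

/-! Project CE (euclidean): WST, WIS, WIN, LOC, IMG. -/

set_option autoImplicit false

namespace Pool.Agent.L7h99.CE

open Pool.Agent.L7h31.CE
open scoped BigOperators Topology

theorem eps_sq (i : ℤ) : eps i * eps i = 1 := by
  unfold eps
  split_ifs <;> norm_num

theorem eps_or (i : ℤ) : eps i = 1 ∨ eps i = -1 := by
  unfold eps
  split_ifs
  · right; rfl
  · left; rfl

/-- the cyclic shift by `d` -/
noncomputable def shiftPerm (r : ℕ) (hr : 0 < r) (d : ℤ) : Equiv.Perm (Fin r) where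
  toFun a := ⟨((((a : ℕ) : ℤ) + d) % (r : ℤ)).toNat, by
    have h1 : 0 ≤ (((a : ℕ) : ℤ) + d) % (r : ℤ) := Int.emod_nonneg _ (by omega)
    have h2 : (((a : ℕ) : ℤ) + d) % (r : ℤ) < r := Int.emod_lt_of_pos _ (by omega)
    omega⟩
  invFun a := ⟨((((a : ℕ) : ℤ) - d) % (r : ℤ)).toNat, by
    have h1 : 0 ≤ (((a : ℕ) : ℤ) - d) % (r : ℤ) := Int.emod_nonneg _ (by omega)
    have h2 : (((a : ℕ) : ℤ) - d) % (r : ℤ) < r := Int.emod_lt_of_pos _ (by omega)
    omega⟩
  left_inv a := by
    apply Fin.ext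
    have h1 : 0 ≤ (((a : ℕ) : ℤ) + d) % (r : ℤ) := Int.emod_nonneg _ (by omega)
    have h3 : ((a : ℕ) : ℤ) % (r : ℤ) = ((a : ℕ) : ℤ) :=
      Int.emod_eq_of_lt (by omega) (by have := a.isLt; omega)
    show (((((((((a : ℕ) : ℤ) + d) % (r : ℤ)).toNat : ℕ)) : ℤ) - d) % (r : ℤ)).toNat = (a : ℕ)
    rw [Int.toNat_of_nonneg h1, Int.emod_sub_emod, add_sub_cancel_right, h3]
    simp
  right_inv a := by
    apply Fin.ext
    have h1 : 0 ≤ (((a : ℕ) : ℤ) - d) % (r : ℤ) := Int.emod_nonneg _ (by omega)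
    have h3 : ((a : ℕ) : ℤ) % (r : ℤ) = ((a : ℕ) : ℤ) :=
      Int.emod_eq_of_lt (by omega) (by have := a.isLt; omega)
    show (((((((((a : ℕ) : ℤ) - d) % (r : ℤ)).toNat : ℕ)) : ℤ) + d) % (r : ℤ)).toNat = (a : ℕ)
    rw [Int.toNat_of_nonneg h1, Int.emod_add_emod, sub_add_cancel, h3]
    simp

theorem shiftPerm_val (r : ℕ) (hr : 0 < r) (d : ℤ) (a : Fin r) :
    (((shiftPerm r hr d a : Fin r) : ℕ) : ℤ) = (((a : ℕ) : ℤ) + d) % (r : ℤ) := by
  have h1 : 0 ≤ (((a : ℕ) : ℤ) + d) % (r : ℤ) := Int.emod_nonneg _ (by omega)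
  show ((((((a : ℕ) : ℤ) + d) % (r : ℤ)).toNat : ℕ) : ℤ) = _
  rw [Int.toNat_of_nonneg h1]

theorem shift_iff (r : ℕ) (hr : 0 < r) (d q : ℤ) (a : Fin r) :
    (q + d) % (r : ℤ) = (((shiftPerm r hr d a : Fin r) : ℕ) : ℤ) ↔ q % (r : ℤ) = ((a : ℕ) : ℤ) := by
  rw [shiftPerm_val]
  have h3 : ((a : ℕ) : ℤ) % (r : ℤ) = ((a : ℕ) : ℤ) :=
    Int.emod_eq_of_lt (by omega) (by have := a.isLt; omega)
  constructor
  · intro h
    have h' : q + d ≡ ((a : ℕ) : ℤ) + d [ZMOD r] := h
    have h2 : q ≡ ((a : ℕ) : ℤ) [ZMOD r] := Int.ModEq.add_right_cancel' d h'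
    have h4 : q % (r : ℤ) = ((a : ℕ) : ℤ) % (r : ℤ) := h2
    rw [h4, h3]
  · intro h
    have h2 : q ≡ ((a : ℕ) : ℤ) [ZMOD r] := by
      show q % (r : ℤ) = ((a : ℕ) : ℤ) % (r : ℤ)
      rw [h, h3]
    exact h2.add_right d

theorem s_WST : S_WST := by
  intro r K D hrK i j
  have hr : 0 < r := by omega
  classical
  let P : Fin r → ℤ → Prop := fun a q =>
    i - K - 1 ≤ q ∧ q ≤ i + K ∧ q % (r : ℤ) = ((a : ℕ) : ℤ)
  let s : Fin r → ℝ := fun a =>
    if h : ∃ q, P a q then eps (h.choose + (j - i)) * eps h.choose else 1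
  have huniq : ∀ a q q', P a q → P a q' → q = q' := by
    intro a q q' h1 h2
    obtain ⟨a1, a2, a3⟩ := h1
    obtain ⟨b1, b2, b3⟩ := h2
    have h3 : (r : ℤ) ∣ q - q' := by
      apply Int.dvd_of_emod_eq_zero
      rw [Int.sub_emod, a3, b3, sub_self, Int.zero_emod]
    by_contra hne
    have h4 : q - q' ≠ 0 := by omega
    have h5 := Int.natAbs_le_of_dvd_ne_zero h3 h4
    omega
  have hstep : ∀ q, i - K - 1 ≤ q → q ≤ i + K → ∀ a : Fin r,
      (if (q + (j - i)) % (r : ℤ) = (((shiftPerm r hr (j - i) a : Fin r) : ℕ) : ℤ)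
        then eps (q + (j - i)) / 4 else 0) =
      s a * (if q % (r : ℤ) = ((a : ℕ) : ℤ) then eps q / 4 else 0) := by
    intro q h1 h2 a
    by_cases h : q % (r : ℤ) = ((a : ℕ) : ℤ)
    · rw [if_pos ((shift_iff r hr (j - i) q a).2 h), if_pos h]
      have hex : ∃ q, P a q := ⟨q, h1, h2, h⟩
      have hs : s a = eps (q + (j - i)) * eps q := by
        show (if h : ∃ q, P a q then eps (h.choose + (j - i)) * eps h.choose else 1) = _
        rw [dif_pos hex]
        rw [huniq a _ q hex.choose_spec ⟨h1, h2, h⟩]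
      rw [hs]
      have := eps_sq q
      linear_combination (-(eps (q + (j - i))) / 4) * this
    · rw [if_neg (fun h' => h ((shift_iff r hr (j - i) q a).1 h')), if_neg h, mul_zero]
  refine ⟨shiftPerm r hr (j - i), s, ?_, ?_⟩
  · intro a
    show (if h : ∃ q, P a q then eps (h.choose + (j - i)) * eps h.choose else 1) = 1 ∨
      (if h : ∃ q, P a q then eps (h.choose + (j - i)) * eps h.choose else 1) = -1
    split_ifs with h
    · rcases eps_or (h.choose + (j - i)) with h1 | h1 <;> rcases eps_or h.choose with h2 | h2 <;>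
        rw [h1, h2] <;> norm_num
    · left; rfl
  have hn : ∀ n : ℕ, n ≤ K + 1 → ∀ a,
      (D.w (j + n) (shiftPerm r hr (j - i) a) - D.w j (shiftPerm r hr (j - i) a) =
        s a * (D.w (i + n) a - D.w i a)) ∧
      (D.w (j - n) (shiftPerm r hr (j - i) a) - D.w j (shiftPerm r hr (j - i) a) =
        s a * (D.w (i - n) a - D.w i a)) := by
    intro n
    induction n with
    | zero =>
      intro _ a
      simp
    | succ n ih =>
      intro hn a
      obtain ⟨ih1, ih2⟩ := ih (by omega) a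
      constructor
      · have e1 := D.step (j + n) (shiftPerm r hr (j - i) a)
        have e2 := D.step (i + n) a
        have e3 := hstep (i + n) (by omega) (by omega) a
        have e4 : i + (n : ℤ) + (j - i) = j + n := by ring
        rw [e4] at e3
        have c1 : j + ((n + 1 : ℕ) : ℤ) = j + n + 1 := by push_cast; ring
        have c2 : i + ((n + 1 : ℕ) : ℤ) = i + n + 1 := by push_cast; ring
        rw [c1, c2, e1, e2, e3]
        linear_combination ih1
      · have e1 := D.step (j - n - 1) (shiftPerm r hr (j - i) a)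
        have e2 := D.step (i - n - 1) a
        have e3 := hstep (i - n - 1) (by omega) (by omega) a
        have e4 : i - (n : ℤ) - 1 + (j - i) = j - n - 1 := by ring
        rw [e4] at e3
        have c1 : j - ((n + 1 : ℕ) : ℤ) = j - n - 1 := by push_cast; ring
        have c2 : i - ((n + 1 : ℕ) : ℤ) = i - n - 1 := by push_cast; ring
        have c3 : j - (n : ℤ) - 1 + 1 = j - n := by ring
        have c4 : i - (n : ℤ) - 1 + 1 = i - n := by ring
        rw [c3] at e1
        rw [c4] at e2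
        rw [e3] at e1
        rw [c1, c2]
        rw [e1, e2] at ih2
        linear_combination ih2
  intro t ht a
  rcases le_total 0 t with h0 | h0
  · have h1 := (hn t.toNat (by rw [abs_le] at ht; omega) a).1
    rwa [Int.toNat_of_nonneg h0] at h1
  · have h1 := (hn (-t).toNat (by rw [abs_le] at ht; omega) a).2
    rw [Int.toNat_of_nonneg (by omega)] at h1
    simpa using h1

theorem s_WIS : S_DST → S_WIS := by
  intro hD r σ s hs c c'
  obtain ⟨h1, h2, h3, _⟩ := hD r
  have hss : ∀ a, s a * s a = 1 := by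
    intro a
    rcases hs a with h | h <;> rw [h] <;> norm_num
  let f : E r → E r := fun z => mk (fun b => hor c' b + s (σ.symm b) *
    (hor z (σ.symm b) - hor c (σ.symm b))) (ver c' + (ver z - ver c))
  let f' : E r → E r := fun z => mk (fun a => hor c a + s a * (hor z (σ a) - hor c' (σ a)))
    (ver c + (ver z - ver c'))
  have hf1 : ∀ z b, hor (f z) b = hor c' b + s (σ.symm b) *
      (hor z (σ.symm b) - hor c (σ.symm b)) := fun z b => (h1 _ _).1 b
  have hf2 : ∀ z, ver (f z) = ver c' + (ver z - ver c) := fun z => (h1 _ _).2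
  have hf3 : ∀ z a, hor (f' z) a = hor c a + s a * (hor z (σ a) - hor c' (σ a)) :=
    fun z a => (h1 _ _).1 a
  have hf4 : ∀ z, ver (f' z) = ver c + (ver z - ver c') := fun z => (h1 _ _).2
  have hinv : ∀ z, f (f' z) = z := by
    intro z
    apply h2
    · intro b
      rw [hf1, hf3, Equiv.apply_symm_apply]
      linear_combination (hor z b - hor c' b) * hss (σ.symm b)
    · rw [hf2, hf4]
      ring
  have hiso : Isometry f := by
    apply Isometry.of_dist_eq
    intro z w
    have e : dist (f z) (f w) ^ 2 = dist z w ^ 2 := by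
      rw [h3, h3, hf2, hf2]
      have e1 : (∑ b, (hor (f z) b - hor (f w) b) ^ 2) = ∑ a, (hor z a - hor w a) ^ 2 := by
        rw [← Equiv.sum_comp σ]
        apply Finset.sum_congr rfl
        intro a _
        rw [hf1, hf1, Equiv.symm_apply_apply]
        linear_combination (hor z a - hor w a) ^ 2 * hss a
      rw [e1]
      ring
    exact (pow_left_inj₀ dist_nonneg dist_nonneg two_ne_zero).1 e
  refine ⟨IsometryEquiv.mk' f f' hinv hiso, ?_⟩
  intro z
  constructor
  · intro a
    show hor (f z) (σ a) = _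
    rw [hf1, Equiv.symm_apply_apply]
  · show ver (f z) = _
    rw [hf2]

theorem s_WIN : S_WST → S_WIS → S_DST → S_WIN := by
  intro hW hI hD r K D hrK i j ν μ
  obtain ⟨h1, h2, _, _⟩ := hD r
  obtain ⟨σ, s, hs, hst⟩ := hW r K D hrK i j
  obtain ⟨g, hg⟩ := hI r σ s hs (cen D i ν) (cen D j μ)
  have hch : ∀ (i : ℤ) (ν : Fin r → ℤ) a, hor (cen D i ν) a = D.w i a + ν a :=
    fun i ν a => (h1 _ _).1 a
  have hcv : ∀ (i : ℤ) (ν : Fin r → ℤ), ver (cen D i ν) = ((r : ℝ) + 1) * i :=
    fun i ν => (h1 _ _).2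
  have hs' : ∃ s' : Fin r → ℤ, ∀ a, (s' a : ℝ) = s a ∧ s' a * s' a = 1 := by
    have : ∀ a, ∃ k : ℤ, (k : ℝ) = s a ∧ k * k = 1 := by
      intro a
      rcases hs a with h | h
      · exact ⟨1, by rw [h]; norm_num, by norm_num⟩
      · exact ⟨-1, by rw [h]; norm_num, by norm_num⟩
    choose s' hs' using this
    exact ⟨s', hs'⟩
  obtain ⟨s', hs'⟩ := hs'
  have key : ∀ t : ℤ, |t| ≤ K + 1 → ∀ ν' μ' : Fin r → ℤ,
      (∀ a, μ' (σ a) = μ (σ a) + s' a * (ν' a - ν a)) →
      g (cen D (i + t) ν') = cen D (j + t) μ' := by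
    intro t ht ν' μ' h
    apply h2
    · intro b
      obtain ⟨a, rfl⟩ := σ.surjective b
      rw [(hg _).1 a, hch, hch, hch, hch]
      have e1 := hst t ht a
      have e2 : (μ' (σ a) : ℝ) = μ (σ a) + s a * (ν' a - ν a) := by
        rw [h a, ← (hs' a).1]
        push_cast
        ring
      rw [e2]
      linear_combination -e1
    · rw [(hg _).2, hcv, hcv, hcv, hcv]
      push_cast
      ring
  refine ⟨g, ?_, ?_⟩
  · have := key 0 (by simp; positivity) ν μ (by intro a; ring)
    simpa using this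
  · intro t ht
    constructor
    · intro ν'
      refine ⟨fun b => μ b + s' (σ.symm b) * (ν' (σ.symm b) - ν (σ.symm b)), ?_⟩
      apply key t ht
      intro a
      simp only [Equiv.symm_apply_apply]
    · intro μ'
      refine ⟨fun a => ν a + s' a * (μ' (σ a) - μ (σ a)), ?_⟩
      apply key t ht
      intro a
      linear_combination (-(μ' (σ a) - μ (σ a))) * (hs' a).2

theorem s_LOC : S_EXT → S_DST → S_LOC := by
  intro hE hD r D i ν z
  obtain ⟨h1, _, h3, _⟩ := hD r
  have hcv : ∀ (i : ℤ) (ν : Fin r → ℤ), ver (cen D i ν) = ((r : ℝ) + 1) * i :=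
    fun i ν => (h1 _ _).2
  constructor
  · intro h t _ μ
    exact h _ ⟨i + t, μ, rfl⟩
  · intro h
    rintro c' ⟨j, μ, rfl⟩
    by_cases ht : |j - i| ≤ 1
    · have := h (j - i) ht μ
      rwa [add_sub_cancel] at this
    · obtain ⟨e1, e2⟩ := hE r D i ν z h
      have h4 : dist z (cen D i ν) ^ 2 ≤ dist z (cen D j μ) ^ 2 := by
        rw [h3, h3, hcv, hcv]
        have f1 : (∑ a, (hor z a - hor (cen D i ν) a) ^ 2) ≤ (r : ℝ) * (1 / 4) := by
          calc (∑ a, (hor z a - hor (cen D i ν) a) ^ 2) ≤ ∑ _a : Fin r, (1 / 4 : ℝ) := by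
                apply Finset.sum_le_sum
                intro a _
                have := e1 a
                rw [abs_le] at this
                nlinarith
            _ = (r : ℝ) * (1 / 4) := by simp
        have f2 : 0 ≤ (∑ a, (hor z a - hor (cen D j μ) a) ^ 2) :=
          Finset.sum_nonneg (fun a _ => sq_nonneg _)
        have hr0 : (0 : ℝ) ≤ r := Nat.cast_nonneg r
        set h' : ℝ := (r : ℝ) + 1 with hh
        have f3 : (ver z - h' * i) ^ 2 ≤ (h' / 2 + 1 / 8) ^ 2 := by
          rw [abs_le] at e2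
          nlinarith
        have f4 : (3 * h' / 2 - 1 / 8) ^ 2 ≤ (ver z - h' * j) ^ 2 := by
          have g1 : (2 : ℝ) ≤ |((j : ℝ) - i)| := by
            have : (2 : ℤ) ≤ |j - i| := by omega
            have h5 : ((2 : ℤ) : ℝ) ≤ ((|j - i| : ℤ) : ℝ) := by exact_mod_cast this
            push_cast at h5
            exact h5
          have g2 : 3 * h' / 2 - 1 / 8 ≤ |ver z - h' * j| := by
            have g3 : |h' * (j - i)| ≤ |ver z - h' * j| + |ver z - h' * i| := by
              have : h' * ((j : ℝ) - i) = -(ver z - h' * j) + (ver z - h' * i) := by ring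
              rw [this]
              refine (abs_add_le _ _).trans ?_
              rw [abs_neg]
            rw [abs_mul, abs_of_pos (by linarith : 0 < h')] at g3
            nlinarith
          have g4 : 0 ≤ 3 * h' / 2 - 1 / 8 := by linarith
          calc (3 * h' / 2 - 1 / 8) ^ 2 ≤ |ver z - h' * j| ^ 2 := by
                apply pow_le_pow_left₀ g4 g2
            _ = _ := sq_abs _
        nlinarith
      exact (pow_le_pow_iff_left₀ dist_nonneg dist_nonneg two_ne_zero).1 h4

theorem s_IMG : S_WIN → S_LOC → S_IMG := by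
  intro hW hL r K D hrK i j ν μ
  obtain ⟨g, hg0, hg⟩ := hW r K D hrK i j ν μ
  have key : ∀ t : ℤ, |t| ≤ K → ∀ ν' μ', g (cen D (i + t) ν') = cen D (j + t) μ' →
      g '' vor (pts D) (cen D (i + t) ν') = vor (pts D) (cen D (j + t) μ') := by
    intro t ht ν' μ' h
    have hmem : ∀ z, z ∈ vor (pts D) (cen D (i + t) ν') ↔
        g z ∈ vor (pts D) (cen D (j + t) μ') := by
      intro z
      rw [hL, hL]
      constructor
      · intro hz u hu κ'
        have htu : |t + u| ≤ K + 1 := (abs_add_le _ _).trans (by linarith)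
        obtain ⟨κ, hκ⟩ := (hg (t + u) htu).2 κ'
        rw [← add_assoc, ← add_assoc] at hκ
        rw [← hκ, ← h, g.dist_eq, g.dist_eq]
        exact hz u hu κ
      · intro hz u hu κ
        have htu : |t + u| ≤ K + 1 := (abs_add_le _ _).trans (by linarith)
        obtain ⟨κ', hκ⟩ := (hg (t + u) htu).1 κ
        rw [← add_assoc, ← add_assoc] at hκ
        have h1 := hz u hu κ'
        rw [← hκ, ← h, g.dist_eq, g.dist_eq] at h1
        exact h1
    ext y
    constructor
    · rintro ⟨z, hz, rfl⟩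
      exact (hmem z).1 hz
    · intro hy
      obtain ⟨z, rfl⟩ := g.surjective y
      exact ⟨z, (hmem z).2 hy, rfl⟩
  refine ⟨g, ?_, ?_⟩
  · have := key 0 (by simp) ν μ (by simpa using hg0)
    simpa using this
  · intro t ht
    have ht' : |t| ≤ K + 1 := by linarith
    constructor
    · intro ν'
      obtain ⟨μ', h⟩ := (hg t ht').1 ν'
      exact ⟨μ', key t ht ν' μ' h⟩
    · intro μ'
      obtain ⟨ν', h⟩ := (hg t ht').2 μ'
      exact ⟨ν', key t ht ν' μ' h⟩

end Pool.Agent.L7h99.CE
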