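import Pool.Agent.L7h99.CE.QBase

/-! Project CE: Q3 (the clique expansion has one region outside of the clique of colour `0`). -/

namespace Pool.Agent.L7h99.CE
open Set Pool.Agent.L7h3.CE
open Pool.Agent.Helper391.Lg (bd ins Reg)

universe u

theorem s_Q3 : S_Q3.{u} := by
  intro V G k hQ
  refine ⟨clique_fin hQ.fin 0, ?_, ?_, ?_, ?_, ?_, ?_⟩
  · intro p
    by_cases h : p.1.1 = 0
    · exact Or.inl h
    · exact Or.inr ⟨0, h⟩
  · intro _
    rw [Set.disjoint_left]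
    intro p hp hp'
    exact hp hp'
  · intro i j hij
    exact absurd (Subsingleton.elim i j) hij
  · intro _ hfin
    apply hQ.inf
    refine ((hfin.image fun p => p.1.1).union (Set.finite_singleton 0)).subset ?_
    rintro j ⟨v, rfl⟩
    by_cases h : k v = 0
    · exact Or.inr h
    · exact Or.inl ⟨vr G k v 0, h, rfl⟩
  · intro _ e _ _ p _
    by_cases h : p.1.1 = 0
    · exact Or.inl h
    · exact Or.inr h
  · intro _ Z hZ hfin
    set J₀ : Set ℕ := (fun p : QV G k => p.1.1) '' (⋃ e ∈ bd (QG G k) Z, {p | p ∈ e}) with hJ₀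
    have hJf : J₀.Finite := (hfin.biUnion fun e _ => ends_finite' e).image _
    obtain ⟨J₁, hJ₁f, hJ₀₁, -, hJ⟩ := hQ.one J₀ hJf
    have hcl : ∀ p q : QV G k, (QG G k).Adj p q → p ∈ Z → p.1.1 ∉ J₁ → q ∈ Z := by
      intro p q hpq hp hpJ
      by_contra hq
      apply hpJ
      apply hJ₀₁
      refine ⟨p, ?_, rfl⟩
      rw [mem_iUnion₂]
      exact ⟨s(p, q), ⟨hpq, ⟨p, Sym2.mem_mk_left _ _, hp⟩, q, Sym2.mem_mk_right _ _, hq⟩,
        Sym2.mem_mk_left _ _⟩
    have hsame : ∀ p q : QV G k, p.1.1 = q.1.1 → p ∈ Z → p.1.1 ∉ J₁ → q ∈ Z := by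
      intro p q hpq hp hpJ
      by_cases hne : p = q
      · rw [← hne]
        exact hp
      · exact hcl p q ⟨hne, Or.inl hpq⟩ hp hpJ
    have hstep : ∀ a b : V, G.Adj a b → k a ∉ J₁ → k b ∉ J₁ → vr G k a 0 ∈ Z → vr G k b 0 ∈ Z := by
      intro a b hab ha hb hZa
      by_cases hk : k a = k b
      · exact hsame _ _ hk hZa ha
      · have h1 : s(a, b) ∈ bd G (Fib k (k a)) :=
          ⟨hab, ⟨a, Sym2.mem_mk_left _ _, rfl⟩, b, Sym2.mem_mk_right _ _, fun h => hk h.symm⟩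
        have h2 : s(a, b) ∈ bd G (Fib k (k b)) :=
          ⟨hab, ⟨b, Sym2.mem_mk_right _ _, rfl⟩, a, Sym2.mem_mk_left _ _, fun h => hk h⟩
        have h3 : ve G k a s(a, b) h1 ∈ Z := hsame (vr G k a 0) _ rfl hZa ha
        have h4 : ve G k b s(a, b) h2 ∈ Z := by
          refine hcl (ve G k a s(a, b) h1) _ ⟨?_, Or.inr ⟨rfl, _, rfl⟩⟩ h3 ha
          intro h
          apply hk
          have : (ve G k a s(a, b) h1).1.1 = (ve G k b s(a, b) h2).1.1 := by rw [h]
          exact this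
        exact hsame (ve G k b s(a, b) h2) _ rfl h4 hb
    have hall : ∀ a b : V, k a ∉ J₁ → k b ∉ J₁ → vr G k a 0 ∈ Z → vr G k b 0 ∈ Z := by
      intro a b ha hb hZa
      obtain ⟨p⟩ := (hJ a b ha hb)
      induction p with
      | nil => exact hZa
      | @cons x y z hadj q ih =>
        rw [SimpleGraph.fromEdgeSet_adj] at hadj
        obtain ⟨⟨hG, hin⟩, -⟩ := hadj
        have hy : k y ∉ J₁ := hin y (Sym2.mem_mk_right _ _)
        exact ih hy hb (hstep x y hG ha hy hZa)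
    have hJfin : {p : QV G k | p.1.1 ∈ J₁}.Finite := by
      have h1 : (⋃ j ∈ J₁, {p : QV G k | p.1.1 = j}).Finite :=
        hJ₁f.biUnion fun j _ => clique_fin hQ.fin j
      refine h1.subset ?_
      intro p hp
      rw [mem_iUnion₂]
      exact ⟨p.1.1, hp, rfl⟩
    by_cases hex : ∃ a, k a ∉ J₁ ∧ vr G k a 0 ∈ Z
    · obtain ⟨a, ha, haZ⟩ := hex
      right
      refine hJfin.subset ?_
      rintro p ⟨-, hpZ⟩
      by_contra hpJ
      obtain ⟨v, hv⟩ := p.2.1
      have hpJ' : p.1.1 ∉ J₁ := hpJ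
      have hvJ : k v ∉ J₁ := by
        rw [hv]
        exact hpJ'
      exact hpZ (hsame (vr G k v 0) p hv (hall a v ha hvJ haZ) hvJ)
    · left
      refine hJfin.subset ?_
      intro p hpZ
      by_contra hpJ
      obtain ⟨v, hv⟩ := p.2.1
      have hpJ' : p.1.1 ∉ J₁ := hpJ
      have hvJ : k v ∉ J₁ := by
        rw [hv]
        exact hpJ'
      exact hex ⟨v, hvJ, hsame p (vr G k v 0) hv.symm hpZ hpJ'⟩

end Pool.Agent.L7h99.CE
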