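import Pool.Agent.L7h3.CE.Stm2

/-! Project CE: basic facts on the clique expansion `QG G k`. -/

namespace Pool.Agent.L7h99.CE
open Set Pool.Agent.L7h3.CE
open Pool.Agent.Helper391.Lg (bd ins)

universe u

variable {V : Type u} {G : SimpleGraph V} {k : V → ℕ}

/-- the vertex `(j, inr i)` -/
def vr (G : SimpleGraph V) (k : V → ℕ) (a : V) (i : Fin 5) : QV G k :=
  ⟨(k a, Sum.inr i), ⟨a, rfl⟩, by intro e he; simp at he⟩

/-- the vertex `(k a, inl e)` -/
def ve (G : SimpleGraph V) (k : V → ℕ) (a : V) (e : Sym2 V) (he : e ∈ bd G (Fib k (k a))) :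
    QV G k :=
  ⟨(k a, Sum.inl e), ⟨a, rfl⟩, by
    intro e' he'
    have : e = e' := by simpa using he'
    subst this
    exact he⟩

theorem clique_fin (h : ∀ j, (bd G (Fib k j)).Finite) (j : ℕ) :
    {p : QV G k | p.1.1 = j}.Finite := by
  have h1 : ((Sum.inl '' bd G (Fib k j)) ∪ Set.range (Sum.inr : Fin 5 → Sym2 V ⊕ Fin 5)).Finite :=
    ((h j).image _).union (Set.finite_range _)
  have h2 : ((fun x => (j, x)) '' ((Sum.inl '' bd G (Fib k j)) ∪
      Set.range (Sum.inr : Fin 5 → Sym2 V ⊕ Fin 5))).Finite := h1.image _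
  refine (h2.preimage (f := fun p : QV G k => p.1) (Subtype.val_injective.injOn)).subset ?_
  rintro ⟨⟨j', x⟩, hj, hx⟩ hp
  have hp' : j' = j := hp
  subst hp'
  refine ⟨x, ?_, rfl⟩
  rcases x with e | i
  · exact Or.inl ⟨e, hx e rfl, rfl⟩
  · exact Or.inr ⟨i, rfl⟩

theorem ends_finite' (e : Sym2 V) : {x | x ∈ e}.Finite := by
  induction e using Sym2.ind with
  | _ a b =>
    refine (Set.toFinite ({a, b} : Set V)).subset ?_
    intro x hx
    simpa using hx

theorem inl_fin (e : Sym2 V) : {p : QV G k | p.1.2 = Sum.inl e}.Finite := by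
  have h2 : ((fun x => (k x, (Sum.inl e : Sym2 V ⊕ Fin 5))) '' {x | x ∈ e}).Finite :=
    (ends_finite' e).image _
  refine (h2.preimage (f := fun p : QV G k => p.1) (Subtype.val_injective.injOn)).subset ?_
  rintro ⟨⟨j', x⟩, hj, hx⟩ hp
  have hp' : x = Sum.inl e := hp
  subst hp'
  obtain ⟨-, ⟨v, hv, hv'⟩, -⟩ := hx e rfl
  exact ⟨v, hv, Prod.ext_iff.2 ⟨hv', rfl⟩⟩

theorem nbr_fin (h : ∀ j, (bd G (Fib k j)).Finite) (p : QV G k) :
    ((QG G k).neighborSet p).Finite := by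
  rcases hx : p.1.2 with e | i
  · refine ((clique_fin h p.1.1).union (inl_fin (G := G) (k := k) e)).subset ?_
    rintro q ⟨-, hq | ⟨hq, -⟩⟩
    · exact Or.inl hq.symm
    · exact Or.inr (hq.symm.trans hx)
  · refine (clique_fin h p.1.1).subset ?_
    rintro q ⟨-, hq | ⟨-, e, he⟩⟩
    · exact hq.symm
    · rw [hx] at he
      simp at he

theorem bd_fin {W : Type*} {H : SimpleGraph W} (h : ∀ v, (H.neighborSet v).Finite) {P : Set W}
    (hP : P.Finite) : (bd H P).Finite := by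
  have h1 : (⋃ p ∈ P, (fun q => s(p, q)) '' H.neighborSet p).Finite :=
    hP.biUnion fun p _ => (h p).image _
  refine h1.subset ?_
  rintro e ⟨he, ⟨x, hx, hxP⟩, -⟩
  rw [mem_iUnion₂]
  refine ⟨x, hxP, ?_⟩
  obtain ⟨y, rfl⟩ := hx
  exact ⟨y, he, rfl⟩

end Pool.Agent.L7h99.CE
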